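import Pool.Agent.H43.TL2.H36.BP.WdA
import Pool.Agent.H43.TL2.M18

/-!
# EF PrA: the projection matrix of a line

`pr x = x x^* / ‖x‖²`.  For `x ≠ 0`, `y ≠ 0`: `‖pr x‖ = 1`, `⟨pr x, pr y⟩ = ‖⟨x, y⟩‖² / (‖x‖² ‖y‖²)` (`∑_{i,j} conj (x i conj (x j)) y i conj (y j)`),
so `‖pr x - pr y‖² = 2 - 2 ‖⟨x, y⟩‖² / (‖x‖² ‖y‖²) = 2 (wd x y)² / (‖x‖² ‖y‖²)` (`wd x y ^ 2 = ‖x‖² ‖y‖² - ‖⟨x, y⟩‖²`, the radicand is
nonnegative by Cauchy-Schwarz).  `pr_eq_iff`: `wd x y = 0` iff `x` is a multiple of `y` (equality in Cauchy-Schwarz, or the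
lemmas of `H36/BP/WdA.lean`).
`isCompact_pr`: `pr '' X = pr '' (X ∩ sphere 0 1)` (`smul_mem`), and `X ∩ sphere 0 1` is compact (`IsCone.closed`).
`nm_close`: `‖(‖x₀‖² / ⟨x₀, x⟩) • x - x₀‖² = ‖x₀‖² (wd x₀ x)² / ‖⟨x₀, x⟩‖²`: the vector `(‖x₀‖² / ⟨x₀, x⟩) • x - x₀` is orthogonal to
`x₀`; and `(wd x₀ x)² = ‖x₀‖² ‖x‖² ‖pr x - pr x₀‖² / 2`, `‖⟨x₀, x⟩‖² = ‖x₀‖² ‖x‖² (1 - ‖pr x - pr x₀‖² / 2)`.
(`inner ℂ x₀ x` is linear in `x`.)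
-/

set_option autoImplicit false

open Topology Filter Metric

namespace Pool.Agent.H62.EF

open Pool.Agent.H36.BP (EN fs wd)

variable {N : ℕ}

theorem wd_sq (x y : EN N) : wd x y ^ 2 = ‖x‖ ^ 2 * ‖y‖ ^ 2 - ‖inner ℂ x y‖ ^ 2 := by
  exact Pool.Agent.H36.BP.wd_sq x y

theorem pr_smul (x : EN N) {c : ℂ} (hc : c ≠ 0) : pr (c • x) = pr x := by
  have h1 : c * (starRingEnd ℂ) c = ((‖c‖ ^ 2 : ℝ) : ℂ) := by
    rw [Complex.mul_conj']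
    push_cast
    rfl
  have h2 : ((‖c‖ ^ 2 : ℝ) : ℂ) ≠ 0 := by
    have : ‖c‖ ≠ 0 := norm_ne_zero_iff.mpr hc
    exact_mod_cast pow_ne_zero 2 this
  unfold pr
  congr 1
  funext i
  have h3 : ((‖c • x‖ ^ 2 : ℝ) : ℂ) = ((‖c‖ ^ 2 : ℝ) : ℂ) * ((‖x‖ ^ 2 : ℝ) : ℂ) := by
    rw [norm_smul, mul_pow]
    push_cast
    rfl
  have h4 : (c • x) i.1 * (starRingEnd ℂ) ((c • x) i.2) =
      ((‖c‖ ^ 2 : ℝ) : ℂ) * (x i.1 * (starRingEnd ℂ) (x i.2)) := by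
    rw [← h1]
    simp only [PiLp.smul_apply, smul_eq_mul, map_mul]
    ring
  rw [h3, h4, mul_div_mul_left _ _ h2]

private theorem inner_sum (x y : EN N) : (inner ℂ x y : ℂ) = ∑ i, (starRingEnd ℂ) (x i) * y i := by
  rw [PiLp.inner_apply]
  refine Finset.sum_congr rfl fun i _ => ?_
  rw [RCLike.inner_apply]
  ring

theorem sq_ne {x : EN N} (hx : x ≠ 0) : ((‖x‖ ^ 2 : ℝ) : ℂ) ≠ 0 := by
  have : ‖x‖ ≠ 0 := norm_ne_zero_iff.mpr hx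
  exact_mod_cast pow_ne_zero 2 this

private theorem inner_pr (x y : EN N) : (inner ℂ (pr x) (pr y) : ℂ) =
    ((‖(inner ℂ x y : ℂ)‖ ^ 2 / (‖x‖ ^ 2 * ‖y‖ ^ 2) : ℝ) : ℂ) := by
  have h1 : ((‖(inner ℂ x y : ℂ)‖ ^ 2 : ℝ) : ℂ) = (inner ℂ x y : ℂ) * (starRingEnd ℂ) (inner ℂ x y : ℂ) := by
    rw [Complex.mul_conj']
    push_cast
    rfl
  have h2 : (inner ℂ (pr x) (pr y) : ℂ) = ∑ p : Fin (N + 1) × Fin (N + 1),
      ((starRingEnd ℂ) (x p.1) * y p.1) * (x p.2 * (starRingEnd ℂ) (y p.2)) /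
        (((‖x‖ ^ 2 : ℝ) : ℂ) * ((‖y‖ ^ 2 : ℝ) : ℂ)) := by
    rw [PiLp.inner_apply]
    refine Finset.sum_congr rfl fun p _ => ?_
    rw [RCLike.inner_apply]
    simp only [pr, map_div₀, map_mul, Complex.conj_conj, Complex.conj_ofReal]
    rw [div_mul_div_comm]
    congr 1
    · ring
    · ring
  rw [h2, ← Finset.sum_div, Fintype.sum_prod_type]
  have h3 : ∑ i : Fin (N + 1), ∑ j : Fin (N + 1), ((starRingEnd ℂ) (x i) * y i) * (x j * (starRingEnd ℂ) (y j)) =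
      (inner ℂ x y : ℂ) * (starRingEnd ℂ) (inner ℂ x y : ℂ) := by
    rw [inner_sum, map_sum, Finset.sum_mul_sum]
    refine Finset.sum_congr rfl fun i _ => Finset.sum_congr rfl fun j _ => ?_
    rw [map_mul, Complex.conj_conj]
  rw [h3, ← h1]
  push_cast
  rfl

theorem norm_pr {x : EN N} (hx : x ≠ 0) : ‖pr x‖ = 1 := by
  have h0 : ‖x‖ ≠ 0 := norm_ne_zero_iff.mpr hx
  have h1 : ‖pr x‖ ^ 2 = 1 := by
    rw [← inner_self_eq_norm_sq (𝕜 := ℂ), inner_pr, inner_self_eq_norm_sq_to_K]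
    simp only [Complex.coe_algebraMap, norm_pow, Complex.norm_real, norm_norm, RCLike.re_to_complex, Complex.ofReal_re]
    field_simp
  have h2 : 0 ≤ ‖pr x‖ := norm_nonneg _
  nlinarith [h1, h2]

theorem dist_pr_sq {x y : EN N} (hx : x ≠ 0) (hy : y ≠ 0) :
    ‖pr x - pr y‖ ^ 2 = 2 * (wd x y ^ 2 / (‖x‖ ^ 2 * ‖y‖ ^ 2)) := by
  have h0 : ‖x‖ ≠ 0 := norm_ne_zero_iff.mpr hx
  have h0' : ‖y‖ ≠ 0 := norm_ne_zero_iff.mpr hy
  rw [norm_sub_sq (𝕜 := ℂ), inner_pr, norm_pr hx, norm_pr hy, wd_sq]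
  simp only [RCLike.re_to_complex, Complex.ofReal_re]
  field_simp
  ring

theorem dist_pr {x y : EN N} (hx : x ≠ 0) (hy : y ≠ 0) :
    dist (pr x) (pr y) = Real.sqrt 2 * (wd x y / (‖x‖ * ‖y‖)) := by
  have h1 : 0 ≤ wd x y := Real.sqrt_nonneg _
  have h2 : 0 ≤ Real.sqrt 2 * (wd x y / (‖x‖ * ‖y‖)) := by positivity
  have h3 : dist (pr x) (pr y) ^ 2 = (Real.sqrt 2 * (wd x y / (‖x‖ * ‖y‖))) ^ 2 := by
    rw [dist_eq_norm, dist_pr_sq hx hy, mul_pow, Real.sq_sqrt (by norm_num), div_pow, mul_pow]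
  exact (pow_left_inj₀ dist_nonneg h2 two_ne_zero).mp h3

theorem continuousAt_pr {x : EN N} (hx : x ≠ 0) : ContinuousAt pr x := by
  have h1 : ContinuousAt (fun x : EN N => fun i : Fin (N + 1) × Fin (N + 1) =>
      x i.1 * (starRingEnd ℂ) (x i.2) / ((‖x‖ ^ 2 : ℝ) : ℂ)) x := by
    refine continuousAt_pi.mpr fun i => ?_
    refine ContinuousAt.div ?_ ?_ (sq_ne hx)
    · refine ContinuousAt.mul ?_ ?_
      · exact (PiLp.continuous_apply 2 _ i.1).continuousAt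
      · exact Complex.continuous_conj.continuousAt.comp (PiLp.continuous_apply 2 _ i.2).continuousAt
    · exact Complex.continuous_ofReal.continuousAt.comp (continuous_norm.pow 2).continuousAt
  exact (PiLp.continuous_toLp 2 _).continuousAt.comp h1

end Pool.Agent.H62.EF
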